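import Pool.Agent.H20.BSat

namespace Pool.Agent.Results.MP_a8c71c_co.Five

open H20.BSat

theorem result : (∀ n, 8 ≤ n → sat n 4 ≤ 5 * n + 13) ∧
    ¬ (∀ k : ℕ, 3 ≤ k → ∃ c : ℝ, ∃ N : ℕ, ∀ n : ℕ, N ≤ n →
      (sat n k : ℝ) = (2 ^ (k - 1) - 1) * n - c) := by
  refine ⟨sat_le, fun h => ?_⟩
  obtain ⟨c, N, h⟩ := h 4 (by norm_num)
  obtain ⟨n, hn⟩ := exists_nat_gt (max (max (N : ℝ) 8) ((c + 13) / 2))
  have h1 : (N : ℝ) < n := lt_of_le_of_lt ((le_max_left _ _).trans (le_max_left _ _)) hn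
  have h2 : (8 : ℝ) < n := lt_of_le_of_lt ((le_max_right _ _).trans (le_max_left _ _)) hn
  have h3 : (c + 13) / 2 < n := lt_of_le_of_lt (le_max_right _ _) hn
  have h4 := h n (by exact_mod_cast h1.le)
  have h5 : (sat n 4 : ℝ) ≤ 5 * n + 13 := by exact_mod_cast sat_le n (by exact_mod_cast h2.le)
  norm_num at h4
  linarith

end Pool.Agent.Results.MP_a8c71c_co.Five
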